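import Pool.Agent.U19.RB.Red

/-!
# From cliques to directed red-blue cuts: correctness
-/

namespace Pool.Agent.NPC.U19.RB

open Pool.Agent.NPC.H634R2

section

variable {V : List ℕ} {E : List (ℕ × ℕ)} {k : ℕ}

/-- the endpoints of the `i`-th edge -/
def en (E : List (ℕ × ℕ)) (i : ℕ) : ℕ × ℕ := E.getD i (0, 0)

/-- the `i`-th edge lies in `U` -/
def inn (E : List (ℕ × ℕ)) (U : Finset ℕ) (i : ℕ) : Bool :=
  decide ((en E i).1 ∈ U) && decide ((en E i).2 ∈ U)

theorem inside_eq (E : List (ℕ × ℕ)) (U : Finset ℕ) :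
    inside E U = ((Finset.range E.length).filter (fun i => inn E U i = true)).card :=
  countP_eq_card_range _ (0, 0) E

theorem inside_add (E : List (ℕ × ℕ)) (U : Finset ℕ) :
    inside E U + ((Finset.range E.length).filter (fun i => ¬ inn E U i = true)).card = E.length := by
  rw [inside_eq, Finset.card_filter_add_card_filter_not, Finset.card_range]

theorem en_mem {i : ℕ} (hi : i < E.length) : en E i ∈ E := by
  unfold en
  rw [List.getD_eq_getElem _ _ hi]
  exact List.getElem_mem hi

/-- A small cut contains all sources and no sink. -/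
theorem forced {X : Finset ℕ} (hne : X.Nonempty)
    (hX : X ⊂ (mk V E k).1.toFinset) (hr : leaving X (mk V E k).2.1 ≤ k + E.length) :
    (∀ j < bigN E k, 4 * j ∈ X) ∧ (∀ j < bigN E k, 4 * j + 1 ∉ X) := by
  set N := bigN E k with hN
  have hNc : 2 * (k + E.length) < N := by rw [hN, bigN]; omega
  have hX1 : X ⊂ (dV V E N).toFinset := hX
  have hr1 : leaving X (pairs (dV V E N) redB) ≤ k + E.length := hr
  have hsub : ∀ x ∈ X, x ∈ dV V E N := fun x hx => List.mem_toFinset.1 (hX1.1 hx)
  have hs : ∀ j < N, 4 * j ∈ dV V E N := fun j hj => mem_dV.2 (Or.inl ⟨j, hj, rfl⟩)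
  have ht : ∀ j < N, 4 * j + 1 ∈ dV V E N := fun j hj => mem_dV.2 (Or.inr (Or.inl ⟨j, hj, rfl⟩))
  obtain ⟨w, hwV, hwX⟩ := Finset.exists_of_ssubset hX1
  have hwV' := List.mem_toFinset.1 hwV
  -- arcs out of a sink
  have key1 : ∀ t ∈ X, t % 4 = 1 → (((dV V E N).toFinset \ X)).card ≤ k + E.length := by
    intro t htX ht1
    refine le_trans ?_ hr1
    rw [← Finset.card_image_of_injective (((dV V E N).toFinset \ X))
      (f := fun v => (t, v)) (fun a b h => by simpa using h)]
    refine card_le_leaving _ ?_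
    intro a ha
    rw [Finset.mem_image] at ha
    obtain ⟨v, hv, rfl⟩ := ha
    rw [Finset.mem_sdiff, List.mem_toFinset] at hv
    refine ⟨mem_pairs.2 ⟨hsub t htX, hv.1, ?_⟩, htX, hv.2⟩
    have : t ≠ v := fun h => hv.2 (h ▸ htX)
    simp [redB, this, ht1]
  have key2 : ∀ s ∈ (dV V E N), s ∉ X → s % 4 = 0 → X.card ≤ k + E.length := by
    intro s hs1 hsX hs0
    refine le_trans ?_ hr1
    rw [← Finset.card_image_of_injective X
      (f := fun v => (v, s)) (fun a b h => by simpa using h)]
    refine card_le_leaving _ ?_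
    intro a ha
    rw [Finset.mem_image] at ha
    obtain ⟨v, hv, rfl⟩ := ha
    refine ⟨mem_pairs.2 ⟨hsub v hv, hs1, ?_⟩, hv, hsX⟩
    have : v ≠ s := fun h => hsX (h ▸ hv)
    simp [redB, this, hs0]
  -- the sinks in X all have an arc to w
  have key3 : (((Finset.range N).filter (fun j => 4 * j + 1 ∈ X))).card ≤ k + E.length := by
    refine le_trans ?_ hr1
    rw [← Finset.card_image_of_injective ((Finset.range N).filter (fun j => 4 * j + 1 ∈ X))
      (f := fun j => (4 * j + 1, w)) (fun a b h => by simpa using h)]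
    refine card_le_leaving _ ?_
    intro a ha
    rw [Finset.mem_image] at ha
    obtain ⟨j, hj, rfl⟩ := ha
    rw [Finset.mem_filter, Finset.mem_range] at hj
    refine ⟨mem_pairs.2 ⟨ht j hj.1, hwV', ?_⟩, hj.2, hwX⟩
    have : 4 * j + 1 ≠ w := fun h => hwX (h ▸ hj.2)
    have h2 : (4 * j + 1) % 4 = 1 := by omega
    simp [redB, this, h2]
  obtain ⟨x, hx⟩ := hne
  have key4 : (((Finset.range N).filter (fun j => 4 * j ∉ X))).card ≤ k + E.length := by
    refine le_trans ?_ hr1
    rw [← Finset.card_image_of_injective ((Finset.range N).filter (fun j => 4 * j ∉ X))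
      (f := fun j => (x, 4 * j)) (fun a b h => by simpa using h)]
    refine card_le_leaving _ ?_
    intro a ha
    rw [Finset.mem_image] at ha
    obtain ⟨j, hj, rfl⟩ := ha
    rw [Finset.mem_filter, Finset.mem_range] at hj
    refine ⟨mem_pairs.2 ⟨hsub x hx, hs j hj.1, ?_⟩, hx, hj.2⟩
    have : x ≠ 4 * j := fun h => hj.2 (h ▸ hx)
    have h2 : (4 * j) % 4 = 0 := by omega
    simp [redB, this, h2]
  have hcard : ∀ p : ℕ → Prop, ∀ [DecidablePred p], ((Finset.range N).filter p).card +
      ((Finset.range N).filter (fun j => ¬ p j)).card = N := by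
    intro p _
    rw [Finset.card_filter_add_card_filter_not, Finset.card_range]
  constructor
  · intro j hj
    by_contra hjX
    have h1 := key2 _ (hs j hj) hjX (by omega)
    have h2 : ((Finset.range N).filter (fun j => 4 * j ∈ X)).card ≤ X.card := by
      rw [← Finset.card_image_of_injective ((Finset.range N).filter (fun j => 4 * j ∈ X))
        (f := fun j => 4 * j) (fun a b h => by simpa using h)]
      refine Finset.card_le_card ?_
      intro a ha
      rw [Finset.mem_image] at ha
      obtain ⟨j, hj, rfl⟩ := ha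
      exact (Finset.mem_filter.1 hj).2
    have h3 := hcard (fun j => 4 * j ∈ X)
    omega
  · intro j hj hjX
    have h1 := key1 _ hjX (by omega)
    have h2 : ((Finset.range N).filter (fun j => ¬ 4 * j + 1 ∈ X)).card ≤
        ((dV V E N).toFinset \ X).card := by
      rw [← Finset.card_image_of_injective ((Finset.range N).filter (fun j => ¬ 4 * j + 1 ∈ X))
        (f := fun j => 4 * j + 1) (fun a b h => by simpa using h)]
      refine Finset.card_le_card ?_
      intro a ha
      rw [Finset.mem_image] at ha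
      obtain ⟨j, hj, rfl⟩ := ha
      rw [Finset.mem_filter, Finset.mem_range] at hj
      exact Finset.mem_sdiff.2 ⟨List.mem_toFinset.2 (ht j hj.1), hj.2⟩
    have h3 := hcard (fun j => 4 * j + 1 ∈ X)
    omega

theorem choose_le (k : ℕ) : k * (k - 1) / 2 ≤ k * k := by
  refine le_trans (Nat.div_le_self _ _) ?_
  exact Nat.mul_le_mul_left k (Nat.sub_le _ _)

theorem clique_to_cut (hG : IsGraph V E) (U : Finset ℕ)
    (hU : ∀ v ∈ U, v ∈ V) (hcard : U.card ≤ k) (hin : k.choose 2 ≤ inside E U) :
    HasCut (mk V E k) := by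
  have hV := hG.1
  set N := bigN E k with hN
  have hN0 : k * (k - 1) / 2 < N := by have := choose_le k; rw [hN, bigN]; omega
  have hd : (dV V E N).Nodup := nodup_dV hV
  have hex : ∀ x, x ∈ (dV V E N).toFinset.filter (fun x => x % 4 = 0 ∨ (x % 4 = 2 ∧ x / 4 ∈ U) ∨
      (x % 4 = 3 ∧ inn E U (x / 4) = true)) ↔ x ∈ dV V E N ∧ (x % 4 = 0 ∨ (x % 4 = 2 ∧ x / 4 ∈ U) ∨
      (x % 4 = 3 ∧ inn E U (x / 4) = true)) := by
    intro x
    rw [Finset.mem_filter, List.mem_toFinset]
  set X := (dV V E N).toFinset.filter (fun x => x % 4 = 0 ∨ (x % 4 = 2 ∧ x / 4 ∈ U) ∨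
      (x % 4 = 3 ∧ inn E U (x / 4) = true)) with hXd
  have h0 : (0 : ℕ) ∈ dV V E N := mem_dV.2 (Or.inl ⟨0, by omega, rfl⟩)
  have h1 : (1 : ℕ) ∈ dV V E N := mem_dV.2 (Or.inr (Or.inl ⟨0, by omega, rfl⟩))
  refine ⟨X, ⟨0, (hex 0).2 ⟨h0, Or.inl rfl⟩⟩, ?_, ?_, ?_⟩
  · refine Finset.ssubset_iff_subset_ne.2 ⟨Finset.filter_subset _ _, fun h => ?_⟩
    have h2 : 1 ∈ X := by rw [h]; exact List.mem_toFinset.2 h1
    have h3 := ((hex 1).1 h2).2
    omega
  · change leaving X (pairs (dV V E N) redB) ≤ k
    refine le_trans (leaving_le_card (nodup_pairs hd _) (U.image (fun v => (4 * v + 2, 1))) ?_)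
      (Finset.card_image_le.trans hcard)
    rintro ⟨u, v⟩ ha hu hv
    obtain ⟨hu1, hv1, hp⟩ := mem_pairs.1 ha
    simp only [redB, Bool.and_eq_true, Bool.or_eq_true, decide_eq_true_eq,
        Bool.not_eq_true', decide_eq_false_iff_not] at hp
    have hu2 := ((hex u).1 hu).2
    have hv0 : ¬ v % 4 = 0 := fun h => hv ((hex v).2 ⟨hv1, Or.inl h⟩)
    rw [Finset.mem_image]
    refine ⟨u / 4, ?_, ?_⟩
    · rcases hu2 with h | h | h
      · omega
      · exact h.2
      · omega
    · rw [Prod.mk.injEq]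
      constructor <;> omega
  · change leaving X (pairs (dV V E N) (blueB E (k * (k - 1) / 2))) ≤ E.length
    set S : Finset (ℕ × ℕ) := (((Finset.range E.length).filter (fun i => ¬ inn E U i = true)).image
      (fun i => (0, 4 * i + 3))) ∪ ((Finset.range (k * (k - 1) / 2)).image
        (fun j => (4 * j, 4 * j + 1))) with hS
    have hSc : S.card ≤ E.length := by
      refine (Finset.card_union_le _ _).trans ?_
      have e1 : (((Finset.range E.length).filter (fun i => ¬ inn E U i = true)).image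
        (fun i => (0, 4 * i + 3))).card ≤ _ := Finset.card_image_le
      have e2 : ((Finset.range (k * (k - 1) / 2)).image
        (fun j => (4 * j, 4 * j + 1))).card ≤ _ := Finset.card_image_le
      have e3 := inside_add E U
      rw [Nat.choose_two_right] at hin
      rw [Finset.card_range] at e2
      omega
    refine le_trans (leaving_le_card (nodup_pairs hd _) S ?_) hSc
    rintro ⟨u, v⟩ ha hu hv
    obtain ⟨hu1, hv1, hp⟩ := mem_pairs.1 ha
    simp only [blueB, Bool.and_eq_true, Bool.or_eq_true, decide_eq_true_eq,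
        Bool.not_eq_true', decide_eq_false_iff_not] at hp
    have hu2 := ((hex u).1 hu).2
    have hv2 : ¬ (v % 4 = 0 ∨ (v % 4 = 2 ∧ v / 4 ∈ U) ∨ (v % 4 = 3 ∧ inn E U (v / 4) = true)) :=
      fun h => hv ((hex v).2 ⟨hv1, h⟩)
    rw [hS, Finset.mem_union, Finset.mem_image, Finset.mem_image]
    rcases hp with ⟨hp1, hp2⟩ | ⟨hp1, hp2, hp3⟩ | ⟨hp1, hp2, hp3⟩
    · left
      refine ⟨v / 4, ?_, ?_⟩
      · rw [Finset.mem_filter, Finset.mem_range]
        constructor
        · rcases mem_dV.1 hv1 with ⟨j, hj, h⟩ | ⟨j, hj, h⟩ | ⟨j, hj, h⟩ | ⟨j, hj, h⟩ <;> omega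
        · intro h
          exact hv2 (Or.inr (Or.inr ⟨hp2, h⟩))
      · rw [Prod.mk.injEq]
        constructor <;> omega
    · exfalso
      rcases hu2 with h | h | h
      · omega
      · omega
      · have h3 := h.2
        simp only [inn, Bool.and_eq_true, decide_eq_true_eq, en] at h3
        refine hv2 (Or.inr (Or.inl ⟨hp2, ?_⟩))
        rcases hp3 with h4 | h4
        · rw [← h4]; simpa using h3.1
        · rw [← h4]; simpa using h3.2
    · right
      refine ⟨u / 4, Finset.mem_range.2 hp3, ?_⟩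
      rw [Prod.mk.injEq]
      constructor <;> omega

theorem cut_to_clique (hG : IsGraph V E) (h : HasCut (mk V E k)) :
    ∃ U : Finset ℕ, (∀ v ∈ U, v ∈ V) ∧ U.card ≤ k ∧ k.choose 2 ≤ inside E U := by
  have hV := hG.1
  obtain ⟨X, hne, hss, hr, hb⟩ := h
  have hr' : leaving X (mk V E k).2.1 ≤ k + E.length := le_trans hr (Nat.le_add_right _ _)
  obtain ⟨hs, ht⟩ := forced hne hss hr'
  set N := bigN E k with hN
  have hN0 : k * (k - 1) / 2 < N := by have := choose_le k; rw [hN, bigN]; omega
  have hd : (dV V E N).Nodup := nodup_dV hV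
  have hX1 : X ⊂ (dV V E N).toFinset := hss
  have hr1 : leaving X (pairs (dV V E N) redB) ≤ k := hr
  have hb1 : leaving X (pairs (dV V E N) (blueB E (k * (k - 1) / 2))) ≤ E.length := hb
  have hsd : ∀ j < N, 4 * j ∈ dV V E N := fun j hj => mem_dV.2 (Or.inl ⟨j, hj, rfl⟩)
  have htd : ∀ j < N, 4 * j + 1 ∈ dV V E N := fun j hj => mem_dV.2 (Or.inr (Or.inl ⟨j, hj, rfl⟩))
  set U : Finset ℕ := V.toFinset.filter (fun v => 4 * v + 2 ∈ X) with hU
  have hUm : ∀ v, v ∈ U ↔ v ∈ V ∧ 4 * v + 2 ∈ X := by
    intro v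
    rw [hU, Finset.mem_filter, List.mem_toFinset]
  have h0X : (0 : ℕ) ∈ X := by simpa using hs 0 (by omega)
  have h1X : (1 : ℕ) ∉ X := by simpa using ht 0 (by omega)
  refine ⟨U, fun v hv => ((hUm v).1 hv).1, ?_, ?_⟩
  · refine le_trans ?_ hr1
    rw [← Finset.card_image_of_injective U (f := fun v => (4 * v + 2, 1))
      (fun a b h => by simpa using h)]
    refine card_le_leaving _ ?_
    intro a ha
    rw [Finset.mem_image] at ha
    obtain ⟨v, hv, rfl⟩ := ha
    have hv' := (hUm v).1 hv
    refine ⟨mem_pairs.2 ⟨mem_dV.2 (Or.inr (Or.inr (Or.inl ⟨v, hv'.1, rfl⟩))),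
      by simpa using htd 0 (by omega), ?_⟩, hv'.2, h1X⟩
    have h2 : (4 * v + 2) % 4 = 2 := by omega
    have h3 : ¬ (4 * v + 2 = 1) := by omega
    simp [redB, h2]
  · rw [Nat.choose_two_right]
    have e3 := inside_add E U
    -- the arc of a missing edge
    let f : ℕ → ℕ × ℕ := fun i => if 4 * i + 3 ∈ X then
      (if (en E i).1 ∈ U then (4 * i + 3, 4 * (en E i).2 + 2) else (4 * i + 3, 4 * (en E i).1 + 2))
      else (0, 4 * i + 3)
    have hf : Function.Injective f := by
      intro i j hij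
      simp only [f] at hij
      split_ifs at hij <;> simp only [Prod.mk.injEq] at hij <;> omega
    set S1 := ((Finset.range E.length).filter (fun i => ¬ inn E U i = true)).image f with hS1
    set S2 := ((Finset.range (k * (k - 1) / 2)).image (fun j => (4 * j, 4 * j + 1))) with hS2
    have hc1 : S1.card = ((Finset.range E.length).filter (fun i => ¬ inn E U i = true)).card :=
      Finset.card_image_of_injective _ hf
    have hc2 : S2.card = k * (k - 1) / 2 := by
      rw [hS2, Finset.card_image_of_injective _ (fun a b h => by simp only [Prod.mk.injEq] at h; omega),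
        Finset.card_range]
    have hdis : Disjoint S1 S2 := by
      rw [Finset.disjoint_left]
      intro a ha hb
      rw [hS1, Finset.mem_image] at ha
      rw [hS2, Finset.mem_image] at hb
      obtain ⟨i, _, rfl⟩ := ha
      obtain ⟨j, _, hj⟩ := hb
      simp only [f] at hj
      split_ifs at hj <;> simp only [Prod.mk.injEq] at hj <;> omega
    have hle : (S1 ∪ S2).card ≤ E.length := by
      refine le_trans (card_le_leaving (X := X) _ ?_) hb1
      intro a ha
      rw [Finset.mem_union] at ha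
      rcases ha with ha | ha
      · rw [hS1, Finset.mem_image] at ha
        obtain ⟨i, hi, rfl⟩ := ha
        rw [Finset.mem_filter, Finset.mem_range] at hi
        have hid : 4 * i + 3 ∈ dV V E N :=
          mem_dV.2 (Or.inr (Or.inr (Or.inr ⟨i, hi.1, rfl⟩)))
        have hen := hG.2.1 _ (en_mem hi.1)
        have hq1 : (4 * i + 3) % 4 = 3 := by omega
        have hq2 : (4 * i + 3) / 4 = i := by omega
        simp only [f]
        split_ifs with c1 c2
        · have c3 : (en E i).2 ∉ U := by
            intro c3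
            exact hi.2 (by simp [inn, c2, c3])
          refine ⟨mem_pairs.2 ⟨hid, mem_dV.2 (Or.inr (Or.inr (Or.inl ⟨_, hen.2.1, rfl⟩))), ?_⟩, c1,
            fun h => c3 ((hUm _).2 ⟨hen.2.1, h⟩)⟩
          have q1 : (4 * (en E i).2 + 2) % 4 = 2 := by omega
          have q2 : (4 * (en E i).2 + 2) / 4 = (en E i).2 := by omega
          simp only [blueB, hq1, hq2, q1, q2]
          simp [en]
        · refine ⟨mem_pairs.2 ⟨hid, mem_dV.2 (Or.inr (Or.inr (Or.inl ⟨_, hen.1, rfl⟩))), ?_⟩, c1,
            fun h => c2 ((hUm _).2 ⟨hen.1, h⟩)⟩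
          have q1 : (4 * (en E i).1 + 2) % 4 = 2 := by omega
          have q2 : (4 * (en E i).1 + 2) / 4 = (en E i).1 := by omega
          simp only [blueB, hq1, hq2, q1, q2]
          simp [en]
        · refine ⟨mem_pairs.2 ⟨by simpa using hsd 0 (by omega), hid, ?_⟩, h0X, c1⟩
          simp only [blueB, hq1]
          simp
      · rw [hS2, Finset.mem_image] at ha
        obtain ⟨j, hj, rfl⟩ := ha
        rw [Finset.mem_range] at hj
        refine ⟨mem_pairs.2 ⟨hsd j (by omega), htd j (by omega), ?_⟩, hs j (by omega),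
          ht j (by omega)⟩
        have q1 : (4 * j) % 4 = 0 := by omega
        have q2 : (4 * j) / 4 = j := by omega
        simp only [blueB, q1, q2, hj]
        simp
    rw [Finset.card_union_of_disjoint hdis, hc1, hc2] at hle
    omega

theorem mk_correct (hG : IsGraph V E) (hk : 2 ≤ k) :
    HasClique V E k ↔ HasCut (mk V E k) := by
  rw [hasClique_iff hG hk]
  exact ⟨fun ⟨U, h1, h2, h3⟩ => clique_to_cut hG U h1 h2 h3, cut_to_clique hG⟩

end

end Pool.Agent.NPC.U19.RB
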