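import Pool.Agent.NPC.Classes

/-!
# The directed red-blue cut problem
-/

namespace Pool.Agent.NPC.U19.RB

/-- An instance of the directed red-blue cut problem: the list of the vertices, the list of the red
arcs, the list of the blue arcs, and the numbers `r` and `b`. An arc is the pair of its tail and its
head; parallel arcs are listed several times. -/
abbrev Inst : Type := List ℕ × List (ℕ × ℕ) × List (ℕ × ℕ) × ℕ × ℕ

/-- The instance describes a directed graph: every vertex is listed once, and the tails and heads of
the arcs are vertices. (Loops and parallel arcs are allowed.) -/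
def IsDigraph (I : Inst) : Prop :=
  I.1.Nodup ∧ ∀ a ∈ I.2.1 ++ I.2.2.1, a.1 ∈ I.1 ∧ a.2 ∈ I.1

/-- The instance describes a simple directed graph: there are no loops, and no arc is listed twice
(so in particular no arc is both red and blue). -/
def IsSimple (I : Inst) : Prop :=
  IsDigraph I ∧ (I.2.1 ++ I.2.2.1).Nodup ∧ ∀ a ∈ I.2.1 ++ I.2.2.1, a.1 ≠ a.2

/-- The number of arcs in the list `A` with tail in `X` and head outside of `X`. -/
def leaving (X : Finset ℕ) (A : List (ℕ × ℕ)) : ℕ :=
  A.countP (fun a => decide (a.1 ∈ X) && decide (a.2 ∉ X))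

/-- Some nonempty proper subset `X` of the set of vertices is such that at most `r` red arcs and at
most `b` blue arcs leave `X`. -/
def HasCut (I : Inst) : Prop :=
  ∃ X : Finset ℕ, X.Nonempty ∧ X ⊂ I.1.toFinset ∧
    leaving X I.2.1 ≤ I.2.2.2.1 ∧ leaving X I.2.2.1 ≤ I.2.2.2.2

end Pool.Agent.NPC.U19.RB
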