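import Pool.Agent.U19.RB.Poly
import Pool.Agent.H671R2.Search
import Pool.Agent.H622R2.Base

/-!
# The directed red-blue cut problem: the final form
-/

namespace Pool.Agent.NPC.U19.RB

open Pool.Agent.NPC.H634R2 Pool.Agent.H622R2

/-- the instance describes a digraph, as a Boolean -/
def isDigraphB (I : Inst) : Bool :=
  decide (ddup I.1 = I.1) && (I.2.1 ++ I.2.2.1).all (fun a => decide (a.1 ∈ I.1) && decide (a.2 ∈ I.1))

theorem ddup_eq_iff {β : Type} [DecidableEq β] : ∀ l : List β, ddup l = l ↔ l.Nodup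
  | [] => by simp [ddup]
  | a :: l => by
    constructor
    · intro h; rw [← h]; exact ddup_nodup _
    · intro h
      rw [List.nodup_cons] at h
      have ih := (ddup_eq_iff l).2 h.2
      unfold ddup at *
      rw [List.foldr_cons, ih, if_neg h.1]

theorem isDigraphB_iff (I : Inst) : isDigraphB I = true ↔ IsDigraph I := by
  unfold isDigraphB IsDigraph
  rw [Bool.and_eq_true, decide_eq_true_iff, ddup_eq_iff, List.all_eq_true]
  simp only [Bool.and_eq_true, decide_eq_true_iff]

theorem poly_isDigraphB : Poly isDigraphB := by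
  unfold isDigraphB
  have h1 : Poly (fun I : Inst => I.1) := Poly.fst Poly.id
  refine Poly.and (Poly.decide_eq (ddup_poly h1) h1) ?_
  refine Poly.all (p := fun (I : Inst) (a : ℕ × ℕ) => decide (a.1 ∈ I.1) && decide (a.2 ∈ I.1)) ?_ ?_
  · fun_prop
  · fun_prop

theorem inNPP_cut : InNPP (fun I : Inst => IsDigraph I ∧ HasCut I) := by
  have h := inNP_of_class poly_isDigraphB
  simpa only [isDigraphB_iff] using h

theorem decidable_iff (C : Inst → Prop) (hC : ∀ I, IsSimple I → C I) :
    (∃ A : List Bool → List Bool, PolyTime A ∧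
      ∀ I : Inst, IsDigraph I → C I → (A (bits I) = [true] ↔ HasCut I)) ↔
    ∀ L : Set (List Bool), InNP L → InP L := by
  constructor
  · rintro ⟨A, hA, hA'⟩ L hL
    obtain ⟨f, hf, hpr, hfL⟩ := hardPr_cut L hL
    refine ⟨fun w => A (bits (f w)), Pool.Agent.H642R2.TMSim.polyTime_comp hA (PC.toPolyTime hf),
      fun w => ?_⟩
    rw [hfL w]
    exact (hA' (f w) (hpr w).1 (hC _ (hpr w))).symm
  · intro h
    obtain ⟨A, hA, hA'⟩ := h _ inNPP_cut
    refine ⟨A, hA, fun I hI _ => ?_⟩
    rw [← hA', bits_mem_lang]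
    exact ⟨fun h => h.2, fun h => ⟨hI, h⟩⟩

end Pool.Agent.NPC.U19.RB
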