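import Pool.Agent.U19.RB.Correct

/-!
# The directed red-blue cut problem: the reduction is computable in polynomial time, and the
problem is in NP
-/

namespace Pool.Agent.NPC.U19.RB

open Pool.Agent.NPC.H634R2

section

variable {α : Type} [TEnc α]

theorem poly_redB {u v : α → ℕ} (hu : Poly u) (hv : Poly v) :
    Poly (fun a => redB (u a) (v a)) := by
  unfold redB
  exact Poly.and (Poly.not (Poly.decide_eq hu hv))
    (Poly.or (Poly.decide_eq (Poly.mod hu (Poly.const 4)) (Poly.const 1))
      (Poly.or (Poly.decide_eq (Poly.mod hv (Poly.const 4)) (Poly.const 0))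
        (Poly.and (Poly.decide_eq (Poly.mod hu (Poly.const 4)) (Poly.const 2))
          (Poly.decide_eq hv (Poly.const 1)))))

theorem poly_blueB {E : α → List (ℕ × ℕ)} {K u v : α → ℕ} (hE : Poly E) (hK : Poly K)
    (hu : Poly u) (hv : Poly v) : Poly (fun a => blueB (E a) (K a) (u a) (v a)) := by
  unfold blueB
  have hg : Poly (fun a => (E a).getD (u a / 4) (0, 0)) :=
    Poly.getD (d := fun _ => ((0, 0) : ℕ × ℕ)) hE (Poly.div hu (Poly.const 4)) (Poly.const _)
  refine Poly.or (Poly.and (Poly.decide_eq hu (Poly.const 0))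
    (Poly.decide_eq (Poly.mod hv (Poly.const 4)) (Poly.const 3))) (Poly.or ?_ ?_)
  · refine Poly.and (Poly.decide_eq (Poly.mod hu (Poly.const 4)) (Poly.const 3))
      (Poly.and (Poly.decide_eq (Poly.mod hv (Poly.const 4)) (Poly.const 2)) (Poly.or ?_ ?_))
    · exact Poly.decide_eq (Poly.fst hg) (Poly.div hv (Poly.const 4))
    · exact Poly.decide_eq (Poly.snd hg) (Poly.div hv (Poly.const 4))
  · exact Poly.and (Poly.decide_eq (Poly.mod hu (Poly.const 4)) (Poly.const 0))
      (Poly.and (Poly.decide_eq hv (Poly.succ hu))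
        (Poly.decide_lt (Poly.div hu (Poly.const 4)) hK))

theorem poly_dV {V : α → List ℕ} {E : α → List (ℕ × ℕ)} {N : α → ℕ} (hV : Poly V) (hE : Poly E)
    (hN : UPoly N) : Poly (fun a => dV (V a) (E a) (N a)) := by
  unfold dV
  have h4 : ∀ c : ℕ, Poly (fun p : α × ℕ => 4 * p.2 + c) := fun c =>
    Poly.add (Poly.mul (Poly.const 4) (Poly.snd Poly.id)) (Poly.const c)
  refine Poly.append (Poly.map (F := fun _ j => 4 * j) hN.range (h4 0)) (Poly.append
    (Poly.map (F := fun _ j => 4 * j + 1) hN.range (h4 1)) (Poly.append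
      (Poly.map (F := fun _ j => 4 * j + 2) hV (h4 2))
      (Poly.map (F := fun _ j => 4 * j + 3) (UPoly.length hE).range (h4 3))))

theorem poly_pairs {l : α → List ℕ} {p : α → ℕ → ℕ → Bool} (hl : Poly l)
    (hp : Poly (fun x : (α × ℕ) × ℕ => p x.1.1 x.1.2 x.2)) :
    Poly (fun a => pairs (l a) (p a)) := by
  unfold pairs
  refine Poly.flatMap (F := fun a u => ((l a).filter (fun v => p a u v)).map (fun v => (u, v))) hl ?_
  refine Poly.map (F := fun (x : α × ℕ) v => (x.2, v)) ?_ (Poly.pair (Poly.snd (Poly.fst Poly.id))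
    (Poly.snd Poly.id))
  exact Poly.filter (p := fun (x : α × ℕ) v => p x.1 x.2 v) (hl.comp (Poly.fst Poly.id)) hp

theorem poly_mk {V : α → List ℕ} {E : α → List (ℕ × ℕ)} {k : α → ℕ} (hV : Poly V) (hE : Poly E)
    (hk : UPoly k) : Poly (fun a => mk (V a) (E a) (k a)) := by
  unfold mk
  have hN : UPoly (fun a => bigN (E a) (k a)) := by
    unfold bigN
    exact UPoly.add (UPoly.add (UPoly.mul (UPoly.const 2) (UPoly.add hk (UPoly.length hE)))
      (UPoly.mul hk hk)) (UPoly.const 3)
  have hd := poly_dV hV hE hN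
  have hk' := hk.toPoly
  have hK : Poly (fun a => k a * (k a - 1) / 2) :=
    Poly.div (Poly.mul hk' (Poly.sub hk' (Poly.const 1))) (Poly.const 2)
  refine Poly.pair hd (Poly.pair ?_ (Poly.pair ?_ (Poly.pair hk' (Poly.length hE))))
  · exact poly_pairs (p := fun _ u v => redB u v) hd
      (poly_redB (Poly.snd (Poly.fst Poly.id)) (Poly.snd Poly.id))
  · exact poly_pairs (p := fun a u v => blueB (E a) (k a * (k a - 1) / 2) u v) hd
      (poly_blueB (hE.comp (Poly.fst (Poly.fst Poly.id))) (hK.comp (Poly.fst (Poly.fst Poly.id)))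
        (Poly.snd (Poly.fst Poly.id)) (Poly.snd Poly.id))

end

/-- the reduction from the clique problem -/
def red (I : (List ℕ × List (ℕ × ℕ)) × ℕ) : Inst :=
  mk I.1.1 I.1.2 (Min.min I.2 (I.1.1.length + 2))

theorem poly_red : Poly red := by
  unfold red
  have h1 : Poly (fun I : (List ℕ × List (ℕ × ℕ)) × ℕ => I.1.1) := Poly.fst (Poly.fst Poly.id)
  have h2 : UPoly (fun I : (List ℕ × List (ℕ × ℕ)) × ℕ => I.1.1.length + 2) :=
    UPoly.add (UPoly.length h1) (UPoly.const 2)
  refine poly_mk h1 (Poly.snd (Poly.fst Poly.id)) ?_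
  exact UPoly.of_le (Poly.min (Poly.snd Poly.id) h2.toPoly) h2 (fun I => Nat.min_le_right _ _)

theorem hasClique_min {V : List ℕ} {E : List (ℕ × ℕ)} {k : ℕ} :
    HasClique V E k ↔ HasClique V E (Min.min k (V.length + 2)) := by
  have key : ∀ m, HasClique V E m → m ≤ V.length := by
    rintro m ⟨K, hK, hc, _⟩
    rw [← hc]
    refine le_trans (Finset.card_le_card (t := V.toFinset) ?_) (List.toFinset_card_le _)
    intro v hv
    exact List.mem_toFinset.2 (hK v hv)
  constructor
  · intro h
    have := key _ h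
    rwa [Nat.min_eq_left (by omega)]
  · intro h
    have h1 := key _ h
    have h2 : Min.min k (V.length + 2) = k := by omega
    rwa [h2] at h

theorem red_correct (I : (List ℕ × List (ℕ × ℕ)) × ℕ) (hG : IsGraph I.1.1 I.1.2) (hk : 2 ≤ I.2) :
    CLIQUE I ↔ HasCut (red I) := by
  unfold CLIQUE red
  rw [hasClique_min, mk_correct hG (by omega)]
  simp [hG]

/-- The directed red-blue cut problem is hard, already for simple digraphs. -/
theorem hardPr_cut : HardPr IsSimple HasCut :=
  hardPr_CLIQUE.trans poly_red (fun _ h => simple_mk h.1.1 _)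
    (fun I h => red_correct I h.1 h.2)

theorem hard_cut (C : Inst → Prop) (hC : ∀ I, IsSimple I → C I) :
    NPHardP (fun I : Inst => IsDigraph I ∧ C I ∧ HasCut I) := by
  have h : HardPr IsSimple (fun I : Inst => IsDigraph I ∧ C I ∧ HasCut I) :=
    hardPr_cut.trans Poly.id (fun _ h => h)
      (fun I h => ⟨fun h' => ⟨h.1, hC I h, h'⟩, fun h' => h'.2.2⟩)
  exact h.toHardI.toNPHardP

/-! ### Membership in NP -/

/-- the number of arcs leaving a set given by a list -/
def leavingL (X : List ℕ) (A : List (ℕ × ℕ)) : ℕ :=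
  (A.filter (fun a => decide (a.1 ∈ X) && !decide (a.2 ∈ X))).length

theorem leavingL_eq (X : List ℕ) (A : List (ℕ × ℕ)) : leavingL X A = leaving X.toFinset A := by
  unfold leavingL leaving
  rw [List.countP_eq_length_filter]
  congr 1
  apply List.filter_congr
  intro a _
  simp

/-- the verifier -/
def verB (C : Inst → Bool) (p : Inst × List ℕ) : Bool :=
  (C p.1 && (!p.2.isEmpty && (p.2.all (fun v => decide (v ∈ p.1.1)) &&
    (p.1.1.any (fun v => !decide (v ∈ p.2)) &&
      (decide (leavingL p.2 p.1.2.1 ≤ p.1.2.2.2.1) &&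
        decide (leavingL p.2 p.1.2.2.1 ≤ p.1.2.2.2.2))))))

theorem poly_leavingL {α : Type} [TEnc α] {X : α → List ℕ} {A : α → List (ℕ × ℕ)} (hX : Poly X)
    (hA : Poly A) : Poly (fun a => leavingL (X a) (A a)) := by
  unfold leavingL
  refine Poly.length (Poly.filter (p := fun a (e : ℕ × ℕ) => decide (e.1 ∈ X a) &&
    !decide (e.2 ∈ X a)) hA ?_)
  exact Poly.and (Poly.decide_mem (Poly.fst (Poly.snd Poly.id)) (hX.comp (Poly.fst Poly.id)))
    (Poly.not (Poly.decide_mem (Poly.snd (Poly.snd Poly.id)) (hX.comp (Poly.fst Poly.id))))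

theorem poly_verB {C : Inst → Bool} (hC : Poly C) : Poly (verB C) := by
  unfold verB
  have hI : Poly (fun p : Inst × List ℕ => p.1) := Poly.fst Poly.id
  have hX : Poly (fun p : Inst × List ℕ => p.2) := Poly.snd Poly.id
  refine Poly.and (hC.comp hI) (Poly.and (Poly.not (Poly.isEmpty hX)) (Poly.and ?_
    (Poly.and ?_ (Poly.and ?_ ?_))))
  · exact Poly.all (p := fun (p : Inst × List ℕ) v => decide (v ∈ p.1.1)) hX
      (Poly.decide_mem (Poly.snd Poly.id) (Poly.fst (Poly.fst (Poly.fst Poly.id))))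
  · exact Poly.any (p := fun (p : Inst × List ℕ) v => !decide (v ∈ p.2)) (Poly.fst hI)
      (Poly.not (Poly.decide_mem (Poly.snd Poly.id) (Poly.snd (Poly.fst Poly.id))))
  · exact Poly.decide_le (poly_leavingL hX (Poly.fst (Poly.snd hI)))
      (Poly.fst (Poly.snd (Poly.snd (Poly.snd hI))))
  · exact Poly.decide_le (poly_leavingL hX (Poly.fst (Poly.snd (Poly.snd hI))))
      (Poly.snd (Poly.snd (Poly.snd (Poly.snd hI))))

theorem inNP_of_class {C : Inst → Bool} (hC : Poly C) :
    InNPP (fun I : Inst => C I = true ∧ HasCut I) := by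
  refine inNPP_of (β := List ℕ) (poly_verB hC) Polynomial.X ?_
  intro I
  rw [Polynomial.eval_X]
  constructor
  · rintro ⟨hCI, X, hne, hss, hr, hb⟩
    have hX : ∀ v ∈ X, v ∈ I.1 := fun v hv => List.mem_toFinset.1 (hss.1 hv)
    obtain ⟨w, hwV, hwX⟩ := Finset.exists_of_ssubset hss
    have ht : (I.1.filter (fun v => decide (v ∈ X))).toFinset = X := by
      ext v
      simp only [List.mem_toFinset, List.mem_filter, decide_eq_true_eq]
      exact ⟨fun h => h.2, fun h => ⟨hX v h, h⟩⟩
    refine ⟨I.1.filter (fun v => decide (v ∈ X)), ?_, ?_⟩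
    · have h1 : ∀ l : List ℕ, ∀ p : ℕ → Bool, sz (l.filter p) ≤ sz l := by
        intro l p
        induction l with
        | nil => simp
        | cons a l ih =>
          rw [List.filter_cons]
          split_ifs
          · simp; omega
          · simp; omega
      refine (h1 _ _).trans ?_
      obtain ⟨V, rest⟩ := I
      simp only [sz_pair]
      omega
    · simp only [verB, Bool.and_eq_true, hCI, true_and, leavingL_eq, ht, decide_eq_true_eq,
        List.all_eq_true, List.any_eq_true, Bool.not_eq_true', List.isEmpty_eq_false_iff]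
      refine ⟨?_, fun v hv => (List.mem_filter.1 hv).1, ⟨w, List.mem_toFinset.1 hwV, ?_⟩, hr, hb⟩
      · obtain ⟨x, hx⟩ := hne
        exact List.ne_nil_of_mem (List.mem_filter.2 ⟨hX x hx, by simpa using hx⟩)
      · simp [hwX]
  · rintro ⟨X, _, h⟩
    simp only [verB, Bool.and_eq_true, leavingL_eq, decide_eq_true_eq,
        List.all_eq_true, List.any_eq_true, Bool.not_eq_true', List.isEmpty_eq_false_iff] at h
    obtain ⟨h0, h1, h2, ⟨w, hw, hw'⟩, h3, h4⟩ := h
    refine ⟨h0, X.toFinset, ?_, ?_, h3, h4⟩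
    · obtain ⟨x, l, hxl⟩ := List.exists_cons_of_ne_nil h1
      exact ⟨x, by simp [hxl]⟩
    · rw [Finset.ssubset_iff_of_subset (fun v hv => List.mem_toFinset.2
        (h2 v (List.mem_toFinset.1 hv)))]
      exact ⟨w, List.mem_toFinset.2 hw, by simpa using hw'⟩

end Pool.Agent.NPC.U19.RB
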