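import Pool.Agent.U19.RB.Defs
import Pool.Agent.H634R2.Clique
import Pool.Agent.NPC.Dec

/-!
# From cliques to directed red-blue cuts: the construction
-/

namespace Pool.Agent.NPC.U19.RB

open Pool.Agent.NPC.H634R2

theorem card_le_leaving {X : Finset ℕ} {A : List (ℕ × ℕ)} (S : Finset (ℕ × ℕ))
    (h : ∀ a ∈ S, a ∈ A ∧ a.1 ∈ X ∧ a.2 ∉ X) : S.card ≤ leaving X A := by
  unfold leaving
  rw [List.countP_eq_length_filter]
  refine le_trans (Finset.card_le_card (t := (A.filter _).toFinset) ?_) (List.toFinset_card_le _)
  intro a ha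
  obtain ⟨h1, h2, h3⟩ := h a ha
  simp [List.mem_filter, h1, h2, h3]

theorem leaving_le_card {X : Finset ℕ} {A : List (ℕ × ℕ)} (hA : A.Nodup) (S : Finset (ℕ × ℕ))
    (h : ∀ a ∈ A, a.1 ∈ X → a.2 ∉ X → a ∈ S) : leaving X A ≤ S.card := by
  unfold leaving
  rw [List.countP_eq_length_filter, ← List.toFinset_card_of_nodup (hA.filter _)]
  refine Finset.card_le_card ?_
  intro a ha
  simp only [List.mem_toFinset, List.mem_filter, Bool.and_eq_true, decide_eq_true_eq] at ha
  exact h a ha.1 ha.2.1 ha.2.2

theorem countP_eq_card_range {α : Type} (p : α → Bool) (d : α) (l : List α) :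
    l.countP p = ((Finset.range l.length).filter (fun i => p (l.getD i d) = true)).card := by
  induction l using List.reverseRecOn with
  | nil => simp
  | append_singleton l a ih =>
    rw [List.countP_append, List.length_append, ih]
    simp only [List.length_cons, List.length_nil, zero_add, List.countP_singleton]
    rw [Finset.range_add_one, Finset.filter_insert]
    have h1 : (l ++ [a]).getD l.length d = a := by simp [List.getD]
    have h2 : (Finset.range l.length).filter (fun i => p ((l ++ [a]).getD i d) = true) =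
        (Finset.range l.length).filter (fun i => p (l.getD i d) = true) := by
      apply Finset.filter_congr
      intro i hi
      rw [Finset.mem_range] at hi
      have : (l ++ [a]).getD i d = l.getD i d := by
        simp [List.getD, List.getElem?_append_left hi]
      rw [this]
    rw [h1, h2]
    split_ifs with h
    · rw [Finset.card_insert_of_notMem (by simp)]
    · rfl

/-- The vertices of the digraph: a source part `4 j`, a sink part `4 j + 1`, the vertices `4 v + 2`
of the graph, and the edges `4 i + 3`. -/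
def dV (V : List ℕ) (E : List (ℕ × ℕ)) (N : ℕ) : List ℕ :=
  (List.range N).map (fun j => 4 * j) ++ ((List.range N).map (fun j => 4 * j + 1) ++
    (V.map (fun v => 4 * v + 2) ++ (List.range E.length).map (fun i => 4 * i + 3)))

/-- red arcs: from every sink vertex to all vertices, from all vertices to every source vertex, and
from every vertex of the graph to the first sink vertex -/
def redB (u v : ℕ) : Bool :=
  !(decide (u = v)) && (decide (u % 4 = 1) || (decide (v % 4 = 0) ||
    (decide (u % 4 = 2) && decide (v = 1))))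

/-- blue arcs: from the first source vertex to every edge, from every edge to its ends, and `K` arcs
from sources to sinks -/
def blueB (E : List (ℕ × ℕ)) (K : ℕ) (u v : ℕ) : Bool :=
  (decide (u = 0) && decide (v % 4 = 3)) ||
  ((decide (u % 4 = 3) && (decide (v % 4 = 2) &&
    (decide ((E.getD (u / 4) (0, 0)).1 = v / 4) || decide ((E.getD (u / 4) (0, 0)).2 = v / 4)))) ||
  (decide (u % 4 = 0) && (decide (v = u + 1) && decide (u / 4 < K))))

/-- all ordered pairs of elements of a list with a given property -/
def pairs (l : List ℕ) (p : ℕ → ℕ → Bool) : List (ℕ × ℕ) :=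
  l.flatMap (fun u => (l.filter (fun v => p u v)).map (fun v => (u, v)))

theorem mem_pairs {l : List ℕ} {p : ℕ → ℕ → Bool} {u v : ℕ} :
    (u, v) ∈ pairs l p ↔ u ∈ l ∧ v ∈ l ∧ p u v = true := by
  simp only [pairs, List.mem_flatMap, List.mem_map, List.mem_filter, Prod.mk.injEq]
  constructor
  · rintro ⟨a, ha, b, ⟨hb, hp⟩, rfl, rfl⟩
    exact ⟨ha, hb, hp⟩
  · rintro ⟨hu, hv, hp⟩
    exact ⟨u, hu, v, ⟨hv, hp⟩, rfl, rfl⟩

theorem nodup_pairs {l : List ℕ} (hl : l.Nodup) (p : ℕ → ℕ → Bool) : (pairs l p).Nodup := by
  unfold pairs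
  rw [List.nodup_flatMap]
  refine ⟨fun u _ => (hl.filter _).map (fun a b h => by simpa using h), ?_⟩
  refine List.Pairwise.imp ?_ hl
  intro a b hab
  rw [Function.onFun, List.disjoint_left]
  intro x hx hx'
  simp only [List.mem_map, List.mem_filter] at hx hx'
  obtain ⟨c, _, rfl⟩ := hx
  obtain ⟨d, _, hd⟩ := hx'
  simp only [Prod.mk.injEq] at hd
  exact hab hd.1.symm

/-- the size of the source part and of the sink part -/
def bigN (E : List (ℕ × ℕ)) (k : ℕ) : ℕ := 2 * (k + E.length) + k * k + 3

/-- the instance produced from a graph and a number -/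
def mk (V : List ℕ) (E : List (ℕ × ℕ)) (k : ℕ) : Inst :=
  (dV V E (bigN E k), pairs (dV V E (bigN E k)) redB,
    pairs (dV V E (bigN E k)) (blueB E (k * (k - 1) / 2)), k, E.length)

section

variable {V : List ℕ} {E : List (ℕ × ℕ)} {N : ℕ}

theorem mem_dV {x : ℕ} : x ∈ dV V E N ↔ (∃ j < N, x = 4 * j) ∨ (∃ j < N, x = 4 * j + 1) ∨
    (∃ v ∈ V, x = 4 * v + 2) ∨ ∃ i < E.length, x = 4 * i + 3 := by
  simp only [dV, List.mem_append, List.mem_map, List.mem_range, eq_comm]

theorem nodup_dV (hV : V.Nodup) : (dV V E N).Nodup := by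
  unfold dV
  rw [List.nodup_append, List.nodup_append, List.nodup_append]
  refine ⟨List.nodup_range.map fun a b h => by simpa using h,
    ⟨List.nodup_range.map fun a b h => by simpa using h,
      ⟨hV.map fun a b h => by simpa using h, List.nodup_range.map fun a b h => by simpa using h,
        ?_⟩, ?_⟩, ?_⟩
  all_goals
    intro a ha b hb
    simp only [List.mem_append, List.mem_map, List.mem_range] at ha hb
    omega

theorem simple_mk (hV : V.Nodup) (k : ℕ) : IsSimple (mk V E k) := by
  have hd := nodup_dV (E := E) (N := bigN E k) hV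
  refine ⟨⟨hd, ?_⟩, ?_, ?_⟩
  · rintro ⟨u, v⟩ ha
    rw [List.mem_append] at ha
    rcases ha with ha | ha <;>
    · have h := mem_pairs.1 ha
      exact ⟨h.1, h.2.1⟩
  · rw [List.nodup_append]
    refine ⟨nodup_pairs hd _, nodup_pairs hd _, ?_⟩
    rintro ⟨u, v⟩ ha ⟨u', v'⟩ hb hab
    obtain ⟨rfl, rfl⟩ := Prod.mk.injEq .. ▸ hab
    have h1 := (mem_pairs.1 ha).2.2
    have h2 := (mem_pairs.1 hb).2.2
    simp only [redB, blueB, Bool.and_eq_true, Bool.or_eq_true, decide_eq_true_eq,
      Bool.not_eq_true', decide_eq_false_iff_not] at h1 h2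
    omega
  · rintro ⟨u, v⟩ ha
    rw [List.mem_append] at ha
    rcases ha with ha | ha
    · have h1 := (mem_pairs.1 ha).2.2
      simp only [redB, Bool.and_eq_true, Bool.or_eq_true, decide_eq_true_eq,
        Bool.not_eq_true', decide_eq_false_iff_not] at h1
      exact h1.1
    · have h2 := (mem_pairs.1 ha).2.2
      simp only [blueB, Bool.and_eq_true, Bool.or_eq_true, decide_eq_true_eq,
        Bool.not_eq_true', decide_eq_false_iff_not] at h2
      simp only
      omega

end

end Pool.Agent.NPC.U19.RB
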